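import Mathlib
import Pool.Agent.H224R3.Dom4

/-!
# The mode of the domination polynomial can be far from the average dominating set size

For every `w ≥ 10^10` divisible by `5` there is a graph `G` with at most `3w³` vertices such that
every mode `m` of the domination polynomial satisfies `|m - avd(G)| ≥ w²`.
-/

set_option autoImplicit false

open Finset Polynomial

namespace Pool.Agent.Results.MP_fd33cb_co.ModeFarFromMean

open Pool.Agent.H224R3.Dom (Mom gp gp_pi gp_prod gp_mom gp_var C sz Dm dk VI VII VIS VIIS D1 D2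
  mom1 mom2 momI momII momIS momIIS momB D1_sub D2_sub exists_e window toC sz_toC ncard_eq G V
  sum_dk)

/-- The number of dominating sets of size `i`. -/
noncomputable def domCount {V : Type*} (G : SimpleGraph V) (i : ℕ) : ℕ :=
  {S : Finset V | S.card = i ∧ ∀ v, v ∈ S ∨ ∃ u ∈ S, G.Adj v u}.ncard

/-- The average size of a dominating set, `D'(G,1) / D(G,1)`. -/
noncomputable def avd {V : Type*} [Fintype V] (G : SimpleGraph V) : ℝ :=
  (∑ i ∈ range (Fintype.card V + 1), (i : ℝ) * domCount G i) /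
    (∑ i ∈ range (Fintype.card V + 1), (domCount G i : ℝ))

/-- `m` is a mode of the domination polynomial. -/
def IsMode {V : Type*} (G : SimpleGraph V) (m : ℕ) : Prop := ∀ i, domCount G i ≤ domCount G m

/-! ### Exponential moments -/

/-- Bound for the exponential moments of a generating polynomial. -/
def EB (P : ℝ[X]) (N m v : ℝ) : Prop :=
  0 ≤ N ∧ ∀ θ : ℝ, |θ| ≤ 1 / 4 → 0 ≤ P.eval (Real.exp θ) ∧
    P.eval (Real.exp θ) ≤ N * Real.exp (θ * m + θ ^ 2 * v)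

lemma EB.mul {P Q : ℝ[X]} {N m v N' m' v' : ℝ} (hP : EB P N m v) (hQ : EB Q N' m' v') :
    EB (P * Q) (N * N') (m + m') (v + v') := by
  refine ⟨mul_nonneg hP.1 hQ.1, fun θ hθ => ?_⟩
  obtain ⟨p1, p2⟩ := hP.2 θ hθ
  obtain ⟨q1, q2⟩ := hQ.2 θ hθ
  rw [eval_mul]
  refine ⟨mul_nonneg p1 q1, ?_⟩
  calc P.eval (Real.exp θ) * Q.eval (Real.exp θ)
      ≤ (N * Real.exp (θ * m + θ ^ 2 * v)) * (N' * Real.exp (θ * m' + θ ^ 2 * v')) :=
        mul_le_mul p2 q2 q1 (mul_nonneg hP.1 (Real.exp_pos _).le)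
    _ = N * N' * (Real.exp (θ * m + θ ^ 2 * v) * Real.exp (θ * m' + θ ^ 2 * v')) := by ring
    _ = N * N' * Real.exp (θ * (m + m') + θ ^ 2 * (v + v')) := by
        rw [← Real.exp_add]; congr 2; ring

lemma EB.pow {P : ℝ[X]} {N m v : ℝ} (hP : EB P N m v) (n : ℕ) :
    EB (P ^ n) (N ^ n) (n * m) (n * v) := by
  induction n with
  | zero => exact ⟨by simp, fun θ _ => by simp⟩
  | succ n ih =>
    have := ih.mul hP
    rw [← pow_succ, ← pow_succ] at this
    convert this using 1 <;> push_cast <;> ring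

lemma EB_of_Mom {α : Type*} {A : Finset α} {f : α → ℕ} {N m v : ℝ} (h : Mom (gp A f) N m v)
    (hN : 0 ≤ N) (_hv : 0 ≤ v) (hf : ∀ x ∈ A, f x ≤ 4) (hm0 : 0 ≤ m) (hm4 : m ≤ 4) :
    EB (gp A f) N m v := by
  refine ⟨hN, fun θ hθ => ?_⟩
  have he : (gp A f).eval (Real.exp θ) = ∑ x ∈ A, Real.exp (θ * f x) := by
    simp only [gp, eval_finsetSum, eval_pow, eval_X]
    apply sum_congr rfl
    intro x _
    rw [← Real.exp_nat_mul]
    congr 1
    ring
  have h0 := h.h0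
  have h1 := h.h1
  rw [Pool.Agent.H224R3.Dom.gp_eval0] at h0
  rw [Pool.Agent.H224R3.Dom.gp_eval1] at h1
  have hvar := gp_var h
  rw [he]
  refine ⟨sum_nonneg (fun x _ => (Real.exp_pos _).le), ?_⟩
  have hpt : ∀ x ∈ A, Real.exp (θ * f x) ≤
      Real.exp (θ * m) * (1 + θ * ((f x : ℝ) - m) + θ ^ 2 * ((f x : ℝ) - m) ^ 2) := by
    intro x hx
    have hfx : (f x : ℝ) ≤ 4 := by exact_mod_cast hf x hx
    have hfx0 : (0 : ℝ) ≤ f x := Nat.cast_nonneg _
    have habs : |θ * ((f x : ℝ) - m)| ≤ 1 := by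
      rw [abs_mul]
      have h4 : |(f x : ℝ) - m| ≤ 4 := by rw [abs_le]; constructor <;> linarith
      calc |θ| * |(f x : ℝ) - m| ≤ (1 / 4) * 4 :=
            mul_le_mul hθ h4 (abs_nonneg _) (by norm_num)
        _ = 1 := by norm_num
    have h2 := Real.abs_exp_sub_one_sub_id_le habs
    have h3 := (abs_le.1 h2).2
    have h4 : Real.exp (θ * f x) = Real.exp (θ * m) * Real.exp (θ * ((f x : ℝ) - m)) := by
      rw [← Real.exp_add]; congr 1; ring
    rw [h4]
    apply mul_le_mul_of_nonneg_left _ (Real.exp_pos _).le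
    rw [mul_pow] at h3
    linarith
  refine (sum_le_sum hpt).trans ?_
  rw [← mul_sum, sum_add_distrib, sum_add_distrib, ← mul_sum, ← mul_sum, hvar]
  have hlin : ∑ x ∈ A, ((f x : ℝ) - m) = 0 := by
    rw [sum_sub_distrib, h1, sum_const, nsmul_eq_mul, h0]; ring
  rw [hlin, sum_const, nsmul_eq_mul, h0]
  have h5 : (N * 1 + θ * 0 + θ ^ 2 * (v * N)) ≤ N * Real.exp (θ ^ 2 * v) := by
    have := Real.add_one_le_exp (θ ^ 2 * v)
    nlinarith
  calc Real.exp (θ * m) * (N * 1 + θ * 0 + θ ^ 2 * (v * N))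
      ≤ Real.exp (θ * m) * (N * Real.exp (θ ^ 2 * v)) :=
        mul_le_mul_of_nonneg_left h5 (Real.exp_pos _).le
    _ = N * (Real.exp (θ * m) * Real.exp (θ ^ 2 * v)) := by ring
    _ = N * Real.exp (θ * m + θ ^ 2 * v) := by rw [← Real.exp_add]

lemma card_le4 (x : Finset (Fin 4)) : x.card ≤ 4 := by
  have := card_le_univ x
  simpa using this

lemma EB_gen (a M : ℕ) (A B : Finset (Finset (Fin 4))) {N m v N' m' v' : ℝ}
    (hA : EB (gp A card) N m v) (hB : EB (gp B card) N' m' v') :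
    EB (gp (Fintype.piFinset (fun _ : Fin a => A) ×ˢ (Fintype.piFinset (fun _ : Fin a => B) ×ˢ
      Fintype.piFinset (fun _ : Fin M => (univ : Finset Bool)))) (sz : C a M → ℕ))
      (N ^ a * (N' ^ a * 2 ^ M)) (a * m + (a * m' + M * (1 / 2)))
      (a * v + (a * v' + M * (1 / 4))) := by
  have hb : EB (gp (univ : Finset Bool) (fun b => if b = true then 1 else 0)) 2 (1 / 2) (1 / 4) :=
    EB_of_Mom momB (by norm_num) (by norm_num) (fun x _ => by split_ifs <;> norm_num)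
      (by norm_num) (by norm_num)
  have h1 := (hA.pow a).mul ((hB.pow a).mul (hb.pow M))
  have h2 : gp (Fintype.piFinset (fun _ : Fin a => A) ×ˢ (Fintype.piFinset (fun _ : Fin a => B) ×ˢ
      Fintype.piFinset (fun _ : Fin M => (univ : Finset Bool)))) (sz : C a M → ℕ) =
      gp A card ^ a * (gp B card ^ a *
        gp (univ : Finset Bool) (fun b => if b = true then 1 else 0) ^ M) := by
    rw [← gp_pi, ← gp_pi, ← gp_pi, ← gp_prod, ← gp_prod]
    congr 1
    funext c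
    simp only [sz]
    ring
  rw [h2]
  exact h1

lemma EB1 (a M : ℕ) : EB (gp (D1 a M) sz) (9 ^ a * (8 ^ a * 2 ^ M))
    (a * (23 / 9) + (a * (11 / 4) + M * (1 / 2))) (a * (56 / 81) + (a * (7 / 16) + M * (1 / 4))) :=
  EB_gen a M VI VIIS
    (EB_of_Mom momI (by norm_num) (by norm_num) (fun x _ => card_le4 x) (by norm_num) (by norm_num))
    (EB_of_Mom momIIS (by norm_num) (by norm_num) (fun x _ => card_le4 x) (by norm_num)
      (by norm_num))

lemma EB2 (a M : ℕ) : EB (gp (D2 a M) sz) (8 ^ a * (9 ^ a * 2 ^ M))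
    (a * (5 / 2) + (a * (8 / 3) + M * (1 / 2))) (a * (3 / 4) + (a * (4 / 9) + M * (1 / 4))) :=
  EB_gen a M VIS VII
    (EB_of_Mom momIS (by norm_num) (by norm_num) (fun x _ => card_le4 x) (by norm_num)
      (by norm_num))
    (EB_of_Mom momII (by norm_num) (by norm_num) (fun x _ => card_le4 x) (by norm_num)
      (by norm_num))

/-- The number of elements of given size. -/
lemma level_le {α : Type*} {A : Finset α} {f : α → ℕ} {N m v : ℝ} (h : EB (gp A f) N m v)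
    (θ : ℝ) (hθ : |θ| ≤ 1 / 4) (k : ℕ) :
    ((A.filter (fun x => f x = k)).card : ℝ) ≤ N * Real.exp (θ * (m - k) + θ ^ 2 * v) := by
  have h1 := (h.2 θ hθ).2
  have h2 : ((A.filter (fun x => f x = k)).card : ℝ) * Real.exp (θ * k) ≤
      (gp A f).eval (Real.exp θ) := by
    have he : (gp A f).eval (Real.exp θ) = ∑ x ∈ A, Real.exp θ ^ (f x) := by
      simp only [gp, eval_finsetSum, eval_pow, eval_X]
    rw [he]
    calc ((A.filter (fun x => f x = k)).card : ℝ) * Real.exp (θ * k)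
        = ∑ x ∈ A.filter (fun x => f x = k), Real.exp θ ^ (f x) := by
          rw [← nsmul_eq_mul, ← sum_const]
          apply sum_congr rfl
          intro x hx
          rw [(mem_filter.1 hx).2, ← Real.exp_nat_mul]
          congr 1; ring
      _ ≤ ∑ x ∈ A, Real.exp θ ^ (f x) :=
          sum_le_sum_of_subset_of_nonneg (filter_subset _ _) (fun _ _ _ => by positivity)
  have h3 : Real.exp (θ * m + θ ^ 2 * v) =
      Real.exp (θ * (m - k) + θ ^ 2 * v) * Real.exp (θ * k) := by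
    rw [← Real.exp_add]; congr 1; ring
  rw [h3] at h1
  have h4 := h2.trans h1
  rw [← mul_assoc] at h4
  exact le_of_mul_le_mul_right h4 (Real.exp_pos _)

/-! ### The rest -/

lemma inter_card (a M : ℕ) : (((D1 a M) ∩ (D2 a M)).card : ℝ) = 8 ^ a * (8 ^ a * 2 ^ M) := by
  have h : (D1 a M) ∩ (D2 a M) = Fintype.piFinset (fun _ : Fin a => VIS) ×ˢ
      (Fintype.piFinset (fun _ : Fin a => VIIS) ×ˢ
        Fintype.piFinset (fun _ : Fin M => (univ : Finset Bool))) := by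
    ext ⟨c1, c2, c3⟩
    simp only [D1, D2, mem_inter, mem_product, Fintype.mem_piFinset, VIS, VIIS, mem_filter,
      mem_univ, implies_true, and_true]
    constructor
    · rintro ⟨⟨_, h2⟩, h3, _⟩
      exact ⟨h3, h2⟩
    · rintro ⟨h1, h2⟩
      exact ⟨⟨fun i => (h1 i).1, h2⟩, h1, fun i => (h2 i).1⟩
  rw [h, card_product, card_product, Fintype.card_piFinset, Fintype.card_piFinset,
    Fintype.card_piFinset, prod_const, prod_const, prod_const]
  have e1 : VIS.card = 8 := by decide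
  have e2 : VIIS.card = 8 := by decide
  rw [e1, e2]
  simp

lemma sz_le {a M : ℕ} (c : C a M) : sz c ≤ 8 * a + M := by
  obtain ⟨S, rfl⟩ := (toC a M).surjective c
  rw [sz_toC]
  refine (card_le_univ S).trans ?_
  simp only [Fintype.card_sum, Fintype.card_prod, Fintype.card_fin]
  omega

/-! ### Numerical estimates -/

lemma E_bound (W : ℝ) (hW : 10 ^ 10 ≤ W) : Real.exp (-(W / 3600)) * (100 * W ^ 8) ≤ 1 := by
  have hW0 : 0 < W := by linarith [show (0 : ℝ) < 10 ^ 10 by norm_num]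
  have h1 : (W / 72000) ^ 20 ≤ Real.exp (W / 3600) := by
    have h2 : W / 72000 ≤ Real.exp (W / 72000) := by
      have := Real.add_one_le_exp (W / 72000)
      linarith
    calc (W / 72000) ^ 20 ≤ (Real.exp (W / 72000)) ^ 20 := pow_le_pow_left₀ (by positivity) h2 20
      _ = Real.exp (W / 3600) := by
        rw [← Real.exp_nat_mul]; congr 1; push_cast; ring
  have h3 : 100 * W ^ 8 ≤ (W / 72000) ^ 20 := by
    rw [div_pow, le_div_iff₀ (by norm_num)]
    have h4 : (10 ^ 10 : ℝ) ^ 12 ≤ W ^ 12 := pow_le_pow_left₀ (by norm_num) hW 12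
    have h5 : 100 * (72000 : ℝ) ^ 20 ≤ W ^ 12 := le_trans (by norm_num) h4
    calc 100 * W ^ 8 * 72000 ^ 20 = (100 * (72000 : ℝ) ^ 20) * W ^ 8 := by ring
      _ ≤ W ^ 12 * W ^ 8 := mul_le_mul_of_nonneg_right h5 (by positivity)
      _ = W ^ 20 := by ring
  rw [Real.exp_neg, inv_mul_le_iff₀ (Real.exp_pos _), mul_one]
  exact h3.trans h1

lemma pow_bound (E : ℝ) (hE0 : 0 ≤ E) (a : ℕ) (ha : (a : ℝ) * E / 8 ≤ 1) :
    (8 + E) ^ a ≤ 8 ^ a * (1 + a * E / 4) := by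
  have e1 : (8 + E) ^ a = 8 ^ a * (1 + E / 8) ^ a := by
    rw [← mul_pow]; congr 1; ring
  have e2 : (1 + E / 8) ^ a ≤ 1 + a * E / 4 := by
    have f1 : (1 + E / 8) ^ a ≤ Real.exp (a * (E / 8)) := by
      rw [Real.exp_nat_mul]
      apply pow_le_pow_left₀ (by positivity)
      have := Real.add_one_le_exp (E / 8)
      linarith
    have f2 : |(a : ℝ) * (E / 8)| ≤ 1 := by
      rw [abs_of_nonneg (by positivity)]
      linarith
    have f3 := (abs_le.1 (Real.abs_exp_sub_one_sub_id_le f2)).2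
    have f4 : ((a : ℝ) * (E / 8)) ^ 2 ≤ (a : ℝ) * (E / 8) := by
      rw [sq]
      have : (a : ℝ) * (E / 8) ≤ 1 := (abs_le.1 f2).2
      have h0 : 0 ≤ (a : ℝ) * (E / 8) := by positivity
      nlinarith
    linarith
  rw [e1]
  exact mul_le_mul_of_nonneg_left e2 (by positivity)

lemma third_bound (a t : ℕ) (hat : a = 100 * t) :
    (8 + 1 / 4 : ℝ) ^ a * (8 + 1 / 4) ^ a * 16 ^ t ≤ (1 / 10) ^ t * (9 ^ a * 8 ^ a) := by
  have e0 : (8 + 1 / 4 : ℝ) = 33 / 4 := by norm_num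
  have e1 : (8 + 1 / 4 : ℝ) ^ a * (8 + 1 / 4) ^ a * 16 ^ t = ((33 / 4) ^ 200 * 16) ^ t := by
    calc (8 + 1 / 4 : ℝ) ^ a * (8 + 1 / 4) ^ a * 16 ^ t = (33 / 4) ^ (200 * t) * 16 ^ t := by
          rw [← pow_add, hat, e0, show 100 * t + 100 * t = 200 * t by ring]
      _ = ((33 / 4) ^ 200) ^ t * 16 ^ t := by rw [pow_mul]
      _ = _ := (mul_pow _ _ _).symm
  have e2 : ((9 : ℝ) ^ a * 8 ^ a) = (72 ^ 100) ^ t := by
    rw [← mul_pow, hat, pow_mul, show (9 : ℝ) * 8 = 72 by norm_num]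
  have e3 : ((33 / 4 : ℝ) ^ 200 * 16) ≤ (1 / 10) * 72 ^ 100 := by norm_num
  rw [e1, e2, ← mul_pow]
  exact pow_le_pow_left₀ (by positivity) e3 t

lemma dk_le {a M : ℕ} (e : Fin M → Fin a × Fin a) (k : ℕ) :
    (dk e k : ℝ) ≤ (((D1 a M).filter (fun c => sz c = k)).card : ℝ) +
      (((D2 a M).filter (fun c => sz c = k)).card : ℝ) +
      (((univ.filter (Dm e)) \ (D1 a M ∪ D2 a M)).card : ℝ) := by
  have hsub : (univ.filter (Dm e)).filter (fun c => sz c = k) ⊆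
      ((D1 a M).filter (fun c => sz c = k) ∪ (D2 a M).filter (fun c => sz c = k)) ∪
      ((univ.filter (Dm e)) \ (D1 a M ∪ D2 a M)) := by
    intro c hc
    obtain ⟨h1, h2⟩ := mem_filter.1 hc
    by_cases h3 : c ∈ D1 a M
    · exact mem_union_left _ (mem_union_left _ (mem_filter.2 ⟨h3, h2⟩))
    · by_cases h4 : c ∈ D2 a M
      · exact mem_union_left _ (mem_union_right _ (mem_filter.2 ⟨h4, h2⟩))
      · refine mem_union_right _ (mem_sdiff.2 ⟨h1, ?_⟩)
        rw [mem_union, not_or]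
        exact ⟨h3, h4⟩
  have h5 := (card_le_card hsub).trans (card_union_le _ _)
  have h6 := card_union_le ((D1 a M).filter (fun c => sz c = k))
    ((D2 a M).filter (fun c => sz c = k))
  unfold dk
  have h7 : ((univ.filter (Dm e)).filter (fun c => sz c = k)).card ≤
      ((D1 a M).filter (fun c => sz c = k)).card + ((D2 a M).filter (fun c => sz c = k)).card +
      ((univ.filter (Dm e)) \ (D1 a M ∪ D2 a M)).card := by omega
  exact_mod_cast h7

/-- The number of dominating sets, in terms of the two phases. -/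
lemma total_split {a M : ℕ} (e : Fin M → Fin a × Fin a) :
    ((univ.filter (Dm e)).card : ℝ) = ((D1 a M).card : ℝ) + ((D2 a M).card : ℝ) -
      (((D1 a M) ∩ (D2 a M)).card : ℝ) +
      (((univ.filter (Dm e)) \ (D1 a M ∪ D2 a M)).card : ℝ) := by
  have hU : D1 a M ∪ D2 a M ⊆ univ.filter (Dm e) := by
    intro c hc
    rcases mem_union.1 hc with h | h
    · exact mem_filter.2 ⟨mem_univ _, D1_sub e h⟩
    · exact mem_filter.2 ⟨mem_univ _, D2_sub e h⟩
  have h1 : ((univ.filter (Dm e)) \ (D1 a M ∪ D2 a M)).card + (D1 a M ∪ D2 a M).card =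
      (univ.filter (Dm e)).card := card_sdiff_add_card_eq_card hU
  have h2 := card_union_add_card_inter (D1 a M) (D2 a M)
  have h1' : ((((univ.filter (Dm e)) \ (D1 a M ∪ D2 a M)).card : ℝ)) +
      ((D1 a M ∪ D2 a M).card : ℝ) = ((univ.filter (Dm e)).card : ℝ) := by exact_mod_cast h1
  have h2' : ((D1 a M ∪ D2 a M).card : ℝ) + (((D1 a M) ∩ (D2 a M)).card : ℝ) =
      ((D1 a M).card : ℝ) + ((D2 a M).card : ℝ) := by exact_mod_cast h2
  linarith

/-- The sum of the sizes of the dominating sets, in terms of the two phases. -/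
lemma sum_split {a M : ℕ} (e : Fin M → Fin a × Fin a) (g : C a M → ℝ) :
    ∑ c ∈ univ.filter (Dm e), g c = ∑ c ∈ D1 a M, g c + ∑ c ∈ D2 a M, g c -
      ∑ c ∈ (D1 a M) ∩ (D2 a M), g c +
      ∑ c ∈ (univ.filter (Dm e)) \ (D1 a M ∪ D2 a M), g c := by
  have hU : D1 a M ∪ D2 a M ⊆ univ.filter (Dm e) := by
    intro c hc
    rcases mem_union.1 hc with h | h
    · exact mem_filter.2 ⟨mem_univ _, D1_sub e h⟩
    · exact mem_filter.2 ⟨mem_univ _, D2_sub e h⟩
  have h1 := sum_sdiff (f := g) hU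
  have h2 := sum_union_inter (s₁ := D1 a M) (s₂ := D2 a M) (f := g)
  linarith

/-- The average size is close to the midpoint of the two phases. -/
lemma mean_close {a M : ℕ} (e : Fin M → Fin a × Fin a) (Z μ1 μ2 n δ : ℝ) (hZ : 0 < Z)
    (h1 : ((D1 a M).card : ℝ) = Z) (h2 : ((D2 a M).card : ℝ) = Z)
    (s1 : ∑ c ∈ D1 a M, (sz c : ℝ) = μ1 * Z) (s2 : ∑ c ∈ D2 a M, (sz c : ℝ) = μ2 * Z)
    (hn : ∀ c : C a M, (sz c : ℝ) ≤ n) (hc0 : 0 ≤ (μ1 + μ2) / 2) (hcn : (μ1 + μ2) / 2 ≤ n)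
    (hδ : (((D1 a M) ∩ (D2 a M)).card : ℝ) +
      (((univ.filter (Dm e)) \ (D1 a M ∪ D2 a M)).card : ℝ) ≤ δ * Z) :
    |(∑ c ∈ univ.filter (Dm e), (sz c : ℝ)) / ((univ.filter (Dm e)).card : ℝ) - (μ1 + μ2) / 2| ≤
      n * δ := by
  set c0 : ℝ := (μ1 + μ2) / 2 with hc0def
  have hT := total_split e
  rw [h1, h2] at hT
  have hI0 : (0 : ℝ) ≤ (((D1 a M) ∩ (D2 a M)).card : ℝ) := Nat.cast_nonneg _
  have hIZ : (((D1 a M) ∩ (D2 a M)).card : ℝ) ≤ Z := by
    rw [← h1]; exact_mod_cast card_le_card inter_subset_left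
  have hR0 : (0 : ℝ) ≤ (((univ.filter (Dm e)) \ (D1 a M ∪ D2 a M)).card : ℝ) :=
    Nat.cast_nonneg _
  have hTZ : Z ≤ ((univ.filter (Dm e)).card : ℝ) := by linarith
  have hT0 : 0 < ((univ.filter (Dm e)).card : ℝ) := by linarith
  have hS := sum_split e (fun c => (sz c : ℝ) - c0)
  have e0 : ∑ c ∈ univ.filter (Dm e), ((sz c : ℝ) - c0) =
      ∑ c ∈ univ.filter (Dm e), (sz c : ℝ) - c0 * ((univ.filter (Dm e)).card : ℝ) := by
    rw [sum_sub_distrib, sum_const, nsmul_eq_mul]; ring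
  have e1 : ∑ c ∈ D1 a M, ((sz c : ℝ) - c0) = μ1 * Z - c0 * Z := by
    rw [sum_sub_distrib, s1, sum_const, nsmul_eq_mul, h1]; ring
  have e2 : ∑ c ∈ D2 a M, ((sz c : ℝ) - c0) = μ2 * Z - c0 * Z := by
    rw [sum_sub_distrib, s2, sum_const, nsmul_eq_mul, h2]; ring
  have hbd : ∀ A : Finset (C a M), |∑ c ∈ A, ((sz c : ℝ) - c0)| ≤ n * (A.card : ℝ) := by
    intro A
    refine (abs_sum_le_sum_abs _ _).trans ?_
    refine (sum_le_card_nsmul A _ n (fun c _ => ?_)).trans ?_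
    · have h3 := hn c
      have h4 : (0 : ℝ) ≤ sz c := Nat.cast_nonneg _
      rw [abs_le]; constructor <;> linarith
    · rw [nsmul_eq_mul, mul_comm]
  have b1 := hbd ((D1 a M) ∩ (D2 a M))
  have b2 := hbd ((univ.filter (Dm e)) \ (D1 a M ∪ D2 a M))
  rw [e0, e1, e2] at hS
  have hmid : μ1 * Z - c0 * Z + (μ2 * Z - c0 * Z) = 0 := by rw [hc0def]; ring
  have hdiff : |∑ c ∈ univ.filter (Dm e), (sz c : ℝ) - c0 * ((univ.filter (Dm e)).card : ℝ)| ≤
      n * (δ * Z) := by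
    have hn0 : 0 ≤ n := le_trans hc0 hcn
    rw [abs_le] at b1 b2 ⊢
    have h5 := mul_le_mul_of_nonneg_left hδ hn0
    rw [mul_add] at h5
    constructor <;> linarith [b1.1, b1.2, b2.1, b2.2]
  have hfin : (∑ c ∈ univ.filter (Dm e), (sz c : ℝ)) / ((univ.filter (Dm e)).card : ℝ) - c0 =
      (∑ c ∈ univ.filter (Dm e), (sz c : ℝ) - c0 * ((univ.filter (Dm e)).card : ℝ)) /
        ((univ.filter (Dm e)).card : ℝ) := by
    field_simp
  rw [hfin, abs_div, abs_of_pos hT0, div_le_iff₀ hT0]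
  refine hdiff.trans ?_
  have hn0 : 0 ≤ n := le_trans hc0 hcn
  have hδ0 : 0 ≤ δ := by
    have : 0 ≤ δ * Z := by linarith
    exact nonneg_of_mul_nonneg_left this hZ
  have h6 : δ * Z ≤ δ * ((univ.filter (Dm e)).card : ℝ) := mul_le_mul_of_nonneg_left hTZ hδ0
  calc n * (δ * Z) ≤ n * (δ * ((univ.filter (Dm e)).card : ℝ)) := mul_le_mul_of_nonneg_left h6 hn0
    _ = n * δ * ((univ.filter (Dm e)).card : ℝ) := by ring

lemma key (u : ℕ) (hu : 2 * 10 ^ 9 ≤ u) :
    ∃ e : Fin (2 * (5 * u) ^ 3) → Fin (36 * (5 * u) ^ 2) × Fin (36 * (5 * u) ^ 2),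
      ∀ m : ℕ, (∀ i, dk e i ≤ dk e m) → (((5 * u) ^ 2 : ℕ) : ℝ) ≤
        |(m : ℝ) - (∑ c ∈ univ.filter (Dm e), (sz c : ℝ)) / ((univ.filter (Dm e)).card : ℝ)| := by
  obtain ⟨a, ha⟩ : ∃ a, a = 36 * (5 * u) ^ 2 := ⟨_, rfl⟩
  obtain ⟨M, hM⟩ : ∃ M, M = 2 * (5 * u) ^ 3 := ⟨_, rfl⟩
  rw [← ha, ← hM]
  have hu0 : 0 < u := by omega
  have ha0 : 0 < a := by rw [ha]; positivity
  obtain ⟨e, he⟩ := exists_e a M (9 * u ^ 2) ha0
  refine ⟨e, ?_⟩
  set W : ℝ := 5 * (u : ℝ) with hWdef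
  have hW : (10 : ℝ) ^ 10 ≤ W := by
    have : ((2 * 10 ^ 9 : ℕ) : ℝ) ≤ u := by exact_mod_cast hu
    push_cast at this
    linarith
  have hW0 : 0 < W := by linarith [show (0 : ℝ) < 10 ^ 10 by norm_num]
  have haR : (a : ℝ) = 36 * W ^ 2 := by rw [ha, hWdef]; push_cast; ring
  have hMR : (M : ℝ) = 2 * W ^ 3 := by rw [hM, hWdef]; push_cast; ring
  have huW : (u : ℝ) = W / 5 := by rw [hWdef]; ring
  have hat : a = 100 * (9 * u ^ 2) := by rw [ha]; ring
  have hκ : (M : ℝ) / (2 * (a : ℝ) ^ 2) * ((9 * u ^ 2 : ℕ) : ℝ) = W / 3600 := by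
    rw [haR, hMR]
    push_cast
    rw [huW]
    field_simp
    ring
  rw [hκ] at he
  set E : ℝ := Real.exp (-(W / 3600)) with hE
  have hE0 : 0 < E := Real.exp_pos _
  have hEb := E_bound W hW
  rw [← hE] at hEb
  set Z : ℝ := 9 ^ a * (8 ^ a * 2 ^ M) with hZ
  have hZ0 : 0 < Z := by positivity
  -- powers of W
  have hW1 : (1 : ℝ) ≤ W := by linarith [show (1 : ℝ) ≤ 10 ^ 10 by norm_num]
  have hWE : W ^ 2 * E ≤ 1 / (100 * W ^ 6) := by
    rw [le_div_iff₀ (by positivity)]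
    nlinarith
  have hE_le : E ≤ W ^ 2 * E := by
    have : (1 : ℝ) ≤ W ^ 2 := one_le_pow₀ hW1
    nlinarith
  have hW6 : (1 : ℝ) ≤ W ^ 6 := one_le_pow₀ hW1
  have hsmall : 1 / (100 * W ^ 6) ≤ 1 / 100 := by
    apply one_div_le_one_div_of_le (by norm_num)
    linarith
  -- the three error terms
  have hb1 : (8 + E) ^ a ≤ 8 ^ a * (1 + a * E / 4) := by
    apply pow_bound E hE0.le
    rw [haR]
    have : 36 * W ^ 2 * E / 8 = 36 / 8 * (W ^ 2 * E) := by ring
    rw [this]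
    linarith
  have hb2 := third_bound a (9 * u ^ 2) hat
  have hW4 : W / 3600 ≤ W ^ 2 * (9 / 25) := by nlinarith
  have hb3 : (1 / 10 : ℝ) ^ (9 * u ^ 2) ≤ E := by
    have h1 : (1 / 10 : ℝ) ≤ Real.exp (-1) := by
      rw [Real.exp_neg, one_div]
      apply inv_anti₀ (Real.exp_pos _)
      have := Real.exp_one_lt_d9
      linarith
    calc (1 / 10 : ℝ) ^ (9 * u ^ 2) ≤ (Real.exp (-1)) ^ (9 * u ^ 2) :=
          pow_le_pow_left₀ (by norm_num) h1 _
      _ = Real.exp (-(W ^ 2 * (9 / 25))) := by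
          rw [← Real.exp_nat_mul]; congr 1; push_cast; rw [huW]; ring
      _ ≤ E := by
          rw [hE]; apply Real.exp_le_exp.2; linarith
  have hb4 : (8 : ℝ) ^ a ≤ 9 ^ a * E := by
    have h1 : (8 / 9 : ℝ) ≤ Real.exp (-(1 / 9)) := by
      have := Real.add_one_le_exp (-(1 / 9) : ℝ)
      linarith
    have h2 : (8 / 9 : ℝ) ^ a ≤ E := by
      calc (8 / 9 : ℝ) ^ a ≤ (Real.exp (-(1 / 9))) ^ a := pow_le_pow_left₀ (by norm_num) h1 _
        _ = Real.exp (-(4 * W ^ 2)) := by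
            rw [← Real.exp_nat_mul]; congr 1; rw [haR]; ring
        _ ≤ E := by
            rw [hE]; apply Real.exp_le_exp.2; nlinarith
    have h3 : (8 : ℝ) ^ a = 9 ^ a * (8 / 9) ^ a := by
      rw [← mul_pow]; norm_num
    rw [h3]
    exact mul_le_mul_of_nonneg_left h2 (by positivity)
  -- total
  have hT : ((univ.filter (Dm e)).card : ℝ) ≤ Z * (2 + 18 * (W ^ 2 * E) + E) := by
    refine he.trans ?_
    have p9 : (0 : ℝ) < 9 ^ a := by positivity
    have p8 : (0 : ℝ) < 8 ^ a := by positivity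
    have p2 : (0 : ℝ) < 2 ^ M := by positivity
    have h1 : (9 : ℝ) ^ a * (8 + E) ^ a ≤ 9 ^ a * (8 ^ a * (1 + a * E / 4)) :=
      mul_le_mul_of_nonneg_left hb1 p9.le
    have h2 : (8 + 1 / 4 : ℝ) ^ a * (8 + 1 / 4) ^ a * 16 ^ (9 * u ^ 2) ≤ E * (9 ^ a * 8 ^ a) :=
      hb2.trans (mul_le_mul_of_nonneg_right hb3 (by positivity))
    calc (2 : ℝ) ^ M * (2 * (9 ^ a * (8 + E) ^ a) + (8 + 1 / 4) ^ a * (8 + 1 / 4) ^ a *
          16 ^ (9 * u ^ 2))
        ≤ 2 ^ M * (2 * (9 ^ a * (8 ^ a * (1 + a * E / 4))) + E * (9 ^ a * 8 ^ a)) := by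
          apply mul_le_mul_of_nonneg_left _ p2.le
          linarith
      _ = Z * (2 + a * E / 2 + E) := by rw [hZ]; ring
      _ = Z * (2 + 18 * (W ^ 2 * E) + E) := by rw [haR]; ring
  have c1 : ((D1 a M).card : ℝ) = Z := by
    have := (mom1 a M).h0
    rw [Pool.Agent.H224R3.Dom.gp_eval0] at this
    exact this
  have c2 : ((D2 a M).card : ℝ) = Z := by
    have := (mom2 a M).h0
    rw [Pool.Agent.H224R3.Dom.gp_eval0] at this
    rw [this, hZ]; ring
  have s1 := (mom1 a M).h1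
  rw [Pool.Agent.H224R3.Dom.gp_eval1] at s1
  have s2 := (mom2 a M).h1
  rw [Pool.Agent.H224R3.Dom.gp_eval1] at s2
  have hZ2 : (8 : ℝ) ^ a * (9 ^ a * 2 ^ M) = Z := by rw [hZ]; ring
  rw [hZ2] at s2
  rw [← hZ] at s1
  have hμ1 : (a : ℝ) * (23 / 9) + (a * (11 / 4) + M * (1 / 2)) = 191 * W ^ 2 + W ^ 3 := by
    rw [haR, hMR]; ring
  have hμ2 : (a : ℝ) * (5 / 2) + (a * (8 / 3) + M * (1 / 2)) = 186 * W ^ 2 + W ^ 3 := by
    rw [haR, hMR]; ring
  rw [hμ1] at s1
  rw [hμ2] at s2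
  have hI : (((D1 a M) ∩ (D2 a M)).card : ℝ) ≤ Z * E := by
    rw [inter_card]
    calc (8 : ℝ) ^ a * (8 ^ a * 2 ^ M) ≤ (9 ^ a * E) * (8 ^ a * 2 ^ M) :=
          mul_le_mul_of_nonneg_right hb4 (by positivity)
      _ = Z * E := by rw [hZ]; ring
  have hsplit := total_split e
  rw [c1, c2] at hsplit
  set Rc : ℝ := (((univ.filter (Dm e)) \ (D1 a M ∪ D2 a M)).card : ℝ) with hRc
  have hRle : Rc ≤ Z * (18 * (W ^ 2 * E) + 2 * E) := by
    have : Z * (18 * (W ^ 2 * E) + 2 * E) = Z * (2 + 18 * (W ^ 2 * E) + E) - 2 * Z + Z * E := by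
      ring
    rw [this]
    linarith
  have hIR : (((D1 a M) ∩ (D2 a M)).card : ℝ) + Rc ≤ (1 / (4 * W ^ 6)) * Z := by
    have h1 : (((D1 a M) ∩ (D2 a M)).card : ℝ) + Rc ≤ Z * (21 * (W ^ 2 * E)) := by
      have h2 : Z * (21 * (W ^ 2 * E)) = Z * (18 * (W ^ 2 * E)) + Z * (3 * (W ^ 2 * E)) := by ring
      have h3 : Z * (3 * E) ≤ Z * (3 * (W ^ 2 * E)) :=
        mul_le_mul_of_nonneg_left (by linarith) hZ0.le
      rw [h2]
      linarith
    have h4 : 21 * (W ^ 2 * E) ≤ 1 / (4 * W ^ 6) := by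
      have h5 : 1 / (4 * W ^ 6) = 25 * (1 / (100 * W ^ 6)) := by
        field_simp; norm_num
      rw [h5]
      have : 0 ≤ W ^ 2 * E := by positivity
      linarith
    calc _ ≤ Z * (21 * (W ^ 2 * E)) := h1
      _ ≤ Z * (1 / (4 * W ^ 6)) := mul_le_mul_of_nonneg_left h4 hZ0.le
      _ = _ := by ring
  -- the mean
  have hn : ∀ c : C a M, (sz c : ℝ) ≤ 3 * W ^ 3 := by
    intro c
    have h1 : (sz c : ℝ) ≤ 8 * a + M := by exact_mod_cast sz_le c
    rw [haR, hMR] at h1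
    have h2 : 288 * W ^ 2 ≤ W ^ 3 := by
      have : 288 ≤ W := by linarith [show (288 : ℝ) ≤ 10 ^ 10 by norm_num]
      calc 288 * W ^ 2 ≤ W * W ^ 2 := mul_le_mul_of_nonneg_right this (by positivity)
        _ = W ^ 3 := by ring
    linarith
  have hW3 : 1000 * W ^ 2 ≤ W ^ 3 := by
    have : 1000 ≤ W := by linarith [show (1000 : ℝ) ≤ 10 ^ 10 by norm_num]
    calc 1000 * W ^ 2 ≤ W * W ^ 2 := mul_le_mul_of_nonneg_right this (by positivity)
      _ = W ^ 3 := by ring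
  have hmean := mean_close e Z (191 * W ^ 2 + W ^ 3) (186 * W ^ 2 + W ^ 3) (3 * W ^ 3)
    (1 / (4 * W ^ 6)) hZ0 c1 c2 s1 s2 hn (by positivity) (by linarith [sq_nonneg W]) hIR
  have hsmall2 : 3 * W ^ 3 * (1 / (4 * W ^ 6)) ≤ 1 := by
    rw [mul_one_div, div_le_one (by positivity)]
    have : W ^ 3 ≤ W ^ 6 := pow_le_pow_right₀ hW1 (by norm_num)
    linarith
  have hmid : (191 * W ^ 2 + W ^ 3 + (186 * W ^ 2 + W ^ 3)) / 2 = 377 / 2 * W ^ 2 + W ^ 3 := by ring
  rw [hmid] at hmean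
  -- the peak
  have hwin := window e (D1 a M) (fun c hc => D1_sub e hc) (mom1 a M) (by positivity)
    (191 * (5 * u) ^ 2 + (5 * u) ^ 3 - u ^ 2) (u ^ 2) (by positivity)
    (by
      rw [Nat.cast_sub (by nlinarith [Nat.zero_le (u ^ 3), Nat.zero_le (u ^ 2)]), hμ1]
      push_cast
      rw [huW]; ring)
    (by
      rw [haR, hMR]
      push_cast
      rw [huW]
      have hW4' : 625 * (4 * (36 * (56 / 81 + 7 / 16) + 1)) ≤ W := by
        linarith [show (625 * (4 * (36 * (56 / 81 + 7 / 16) + 1)) : ℝ) ≤ 10 ^ 10 by norm_num]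
      have h1 : 0 < W ^ 3 := by positivity
      have h2 : W ^ 2 ≤ W ^ 3 := pow_le_pow_right₀ hW1 (by norm_num)
      have h3 : 625 * (4 * (36 * (56 / 81 + 7 / 16) + 1)) * W ^ 3 ≤ W * W ^ 3 :=
        mul_le_mul_of_nonneg_right hW4' h1.le
      have h4 : ((W / 5) ^ 2) ^ 2 = W * W ^ 3 / 625 := by ring
      rw [h4]
      rw [le_div_iff₀ (by norm_num)]
      nlinarith)
  rw [← hZ] at hwin
  intro m hm
  by_contra hlt
  push Not at hlt
  have hcast : (((5 * u) ^ 2 : ℕ) : ℝ) = W ^ 2 := by push_cast; rw [hWdef]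
  rw [hcast] at hlt
  set av : ℝ := (∑ c ∈ univ.filter (Dm e), (sz c : ℝ)) / ((univ.filter (Dm e)).card : ℝ) with hav
  have hW2 : (1 : ℝ) ≤ W ^ 2 / 10 := by
    have : (10 ^ 10 : ℝ) ^ 2 ≤ W ^ 2 := pow_le_pow_left₀ (by norm_num) hW 2
    have h10 : (10 : ℝ) ≤ (10 ^ 10) ^ 2 := by norm_num
    linarith
  have hmc : |(m : ℝ) - (377 / 2 * W ^ 2 + W ^ 3)| ≤ 11 / 10 * W ^ 2 := by
    rw [abs_lt] at hlt
    rw [abs_le] at hmean ⊢
    constructor <;> linarith [hlt.1, hlt.2, hmean.1, hmean.2]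
  rw [abs_le] at hmc
  -- lower bound for the maximum
  have hpeak : 3 / 4 * Z ≤ (2 * (W ^ 2 / 25)) * dk e m := by
    refine hwin.trans ?_
    refine (sum_le_card_nsmul _ _ (dk e m : ℝ) (fun k _ => by exact_mod_cast hm k)).trans ?_
    rw [Nat.card_Ico, Nat.add_sub_cancel_left, nsmul_eq_mul]
    push_cast
    rw [huW]
    apply le_of_eq; ring
  -- upper bound
  have hθ : |(-(1 / W))| ≤ 1 / 4 := by
    rw [abs_neg, abs_of_pos (by positivity)]
    apply one_div_le_one_div_of_le (by norm_num)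
    linarith [show (4 : ℝ) ≤ 10 ^ 10 by norm_num]
  have hθ' : |(1 / W)| ≤ 1 / 4 := by
    rw [← abs_neg]; exact hθ
  have l1 := level_le (EB1 a M) (-(1 / W)) hθ m
  have l2 := level_le (EB2 a M) (1 / W) hθ' m
  rw [hμ1, ← hZ] at l1
  rw [hμ2, hZ2] at l2
  have hbig : 100 + W / 3600 ≤ 9 / 10 * W - 41 := by
    linarith [show (1000 : ℝ) ≤ 10 ^ 10 by norm_num]
  have x1 : -(1 / W) * (191 * W ^ 2 + W ^ 3 - m) + (-(1 / W)) ^ 2 *
      (a * (56 / 81) + (a * (7 / 16) + M * (1 / 4))) ≤ -(W / 3600) := by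
    rw [haR, hMR]
    have h1 : (-(1 / W)) ^ 2 * (36 * W ^ 2 * (56 / 81) + (36 * W ^ 2 * (7 / 16) +
        2 * W ^ 3 * (1 / 4))) = 36 * (56 / 81 + 7 / 16) + W / 2 := by
      field_simp
      ring
    rw [h1]
    have h2 : 7 / 5 * W ^ 2 ≤ 191 * W ^ 2 + W ^ 3 - m := by linarith [hmc.2]
    have h3 : 7 / 5 * W ≤ 1 / W * (191 * W ^ 2 + W ^ 3 - m) := by
      have h4 : 1 / W * (7 / 5 * W ^ 2) ≤ 1 / W * (191 * W ^ 2 + W ^ 3 - m) :=
        mul_le_mul_of_nonneg_left h2 (by positivity)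
      have h5 : 1 / W * (7 / 5 * W ^ 2) = 7 / 5 * W := by field_simp
      linarith
    linarith
  have x2 : 1 / W * (186 * W ^ 2 + W ^ 3 - m) + (1 / W) ^ 2 *
      (a * (3 / 4) + (a * (4 / 9) + M * (1 / 4))) ≤ -(W / 3600) := by
    rw [haR, hMR]
    have h1 : (1 / W) ^ 2 * (36 * W ^ 2 * (3 / 4) + (36 * W ^ 2 * (4 / 9) +
        2 * W ^ 3 * (1 / 4))) = 43 + W / 2 := by
      field_simp
      ring
    rw [h1]
    have h2 : 186 * W ^ 2 + W ^ 3 - m ≤ -(7 / 5 * W ^ 2) := by linarith [hmc.1]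
    have h3 : 1 / W * (186 * W ^ 2 + W ^ 3 - m) ≤ -(7 / 5 * W) := by
      have h4 : 1 / W * (186 * W ^ 2 + W ^ 3 - m) ≤ 1 / W * (-(7 / 5 * W ^ 2)) :=
        mul_le_mul_of_nonneg_left h2 (by positivity)
      have h5 : 1 / W * (-(7 / 5 * W ^ 2)) = -(7 / 5 * W) := by field_simp
      linarith
    linarith
  have l1' : (((D1 a M).filter (fun c => sz c = m)).card : ℝ) ≤ Z * E :=
    l1.trans (mul_le_mul_of_nonneg_left (Real.exp_le_exp.2 x1) hZ0.le)
  have l2' : (((D2 a M).filter (fun c => sz c = m)).card : ℝ) ≤ Z * E :=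
    l2.trans (mul_le_mul_of_nonneg_left (Real.exp_le_exp.2 x2) hZ0.le)
  have hdk := dk_le e m
  rw [← hRc] at hdk
  have hI0 : (0 : ℝ) ≤ (((D1 a M) ∩ (D2 a M)).card : ℝ) := Nat.cast_nonneg _
  have hdk2 : (dk e m : ℝ) ≤ Z * (1 / (2 * W ^ 6)) := by
    have h1 : Z * E ≤ Z * (1 / (100 * W ^ 6)) :=
      mul_le_mul_of_nonneg_left (hE_le.trans hWE) hZ0.le
    have h2 : Z * (1 / (2 * W ^ 6)) = Z * (1 / (4 * W ^ 6)) + 25 * (Z * (1 / (100 * W ^ 6))) := by
      field_simp; norm_num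
    have h3 : 0 ≤ Z * (1 / (100 * W ^ 6)) := by positivity
    rw [h2]
    linarith
  have hfin : (2 * (W ^ 2 / 25)) * (dk e m : ℝ) ≤ (2 * (W ^ 2 / 25)) * (Z * (1 / (2 * W ^ 6))) :=
    mul_le_mul_of_nonneg_left hdk2 (by positivity)
  have hfin2 : (2 * (W ^ 2 / 25)) * (Z * (1 / (2 * W ^ 6))) = Z * (1 / (25 * W ^ 4)) := by
    field_simp
  have hfin3 : Z * (1 / (25 * W ^ 4)) ≤ Z * (1 / 25) := by
    apply mul_le_mul_of_nonneg_left _ hZ0.le
    apply one_div_le_one_div_of_le (by norm_num)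
    have : (1 : ℝ) ≤ W ^ 4 := one_le_pow₀ hW1
    linarith
  linarith

/-! ### Conclusion -/

lemma sum_domCount {a M : ℕ} (e : Fin M → Fin a × Fin a) :
    (∑ i ∈ range (Fintype.card (V a M) + 1), (domCount (G e) i : ℝ)) =
      ((univ.filter (Dm e)).card : ℝ) := by
  have h1 : ∀ i, domCount (G e) i = dk e i := fun i => ncard_eq e i
  simp only [h1]
  rw [← Nat.cast_sum]
  congr 1
  unfold dk
  symm
  apply card_eq_sum_card_fiberwise
  intro c _
  rw [mem_coe, mem_range]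
  obtain ⟨S, rfl⟩ := (toC a M).surjective c
  rw [sz_toC]
  exact Nat.lt_succ_of_le (card_le_univ S)

lemma sum_mul_domCount {a M : ℕ} (e : Fin M → Fin a × Fin a) :
    (∑ i ∈ range (Fintype.card (V a M) + 1), (i : ℝ) * (domCount (G e) i : ℝ)) =
      ∑ c ∈ univ.filter (Dm e), (sz c : ℝ) := by
  have h1 : ∀ i, domCount (G e) i = dk e i := fun i => ncard_eq e i
  simp only [h1]
  rw [← sum_fiberwise_of_maps_to (s := univ.filter (Dm e))
    (t := range (Fintype.card (V a M) + 1)) (g := sz)]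
  · apply sum_congr rfl
    intro i _
    unfold dk
    rw [sum_congr rfl (fun c hc => by rw [(mem_filter.1 hc).2]), sum_const, nsmul_eq_mul]
    ring
  · intro c _
    rw [mem_range]
    obtain ⟨S, rfl⟩ := (toC a M).surjective c
    rw [sz_toC]
    exact Nat.lt_succ_of_le (card_le_univ S)

/-- Main result. For every `w ≥ 10^10` divisible by `5` there is a graph `G` with at most `3w³`
vertices for which every mode `m` of the domination polynomial satisfies `|m - avd(G)| ≥ w²`.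
In particular there are a graph `G` and a mode `m` of its domination polynomial different from
both roundings of `avd(G)`, and `|m - avd(G)|` is not bounded. -/
theorem result :
    (∀ w : ℕ, 10 ^ 10 ≤ w → 5 ∣ w → ∃ (V : Type) (_ : Fintype V) (G : SimpleGraph V),
      Fintype.card V ≤ 3 * w ^ 3 ∧ (∃ m, IsMode G m) ∧
      ∀ m, IsMode G m → (w : ℝ) ^ 2 ≤ |(m : ℝ) - avd G|) ∧
    (∃ (V : Type) (_ : Fintype V) (G : SimpleGraph V) (m : ℕ), IsMode G m ∧
      (m : ℤ) ≠ ⌊avd G⌋ ∧ (m : ℤ) ≠ ⌈avd G⌉) := by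
  have main : ∀ w : ℕ, 10 ^ 10 ≤ w → 5 ∣ w → ∃ (V : Type) (_ : Fintype V) (G : SimpleGraph V),
      Fintype.card V ≤ 3 * w ^ 3 ∧ (∃ m, IsMode G m) ∧
      ∀ m, IsMode G m → (w : ℝ) ^ 2 ≤ |(m : ℝ) - avd G| := by
    rintro w hw ⟨u, rfl⟩
    obtain ⟨e, he⟩ := key u (by omega)
    refine ⟨V (36 * (5 * u) ^ 2) (2 * (5 * u) ^ 3), inferInstance, G e, ?_, ?_, ?_⟩
    · simp only [Fintype.card_sum, Fintype.card_prod, Fintype.card_fin]
      have h1 : 288 ≤ 5 * u := by omega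
      have h2 : 288 * (5 * u) ^ 2 ≤ (5 * u) * (5 * u) ^ 2 := Nat.mul_le_mul_right _ h1
      have h3 : (5 * u) * (5 * u) ^ 2 = (5 * u) ^ 3 := by ring
      omega
    · obtain ⟨m, _, hm⟩ := exists_max_image (range (Fintype.card
        (V (36 * (5 * u) ^ 2) (2 * (5 * u) ^ 3)) + 1)) (fun i => domCount (G e) i)
        ⟨0, mem_range.2 (Nat.succ_pos _)⟩
      refine ⟨m, fun i => ?_⟩
      by_cases hi : i < Fintype.card (V (36 * (5 * u) ^ 2) (2 * (5 * u) ^ 3)) + 1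
      · exact hm i (mem_range.2 hi)
      · have h0 : domCount (G e) i = 0 := by
          unfold domCount
          have : {S : Finset (V (36 * (5 * u) ^ 2) (2 * (5 * u) ^ 3)) | S.card = i ∧
              ∀ v, v ∈ S ∨ ∃ u ∈ S, (G e).Adj v u} = ∅ := by
            ext S
            simp only [Set.mem_ofPred_eq, Set.mem_empty_iff_false, iff_false, not_and]
            intro hS
            have := card_le_univ S
            omega
          rw [this, Set.ncard_empty]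
        rw [h0]; exact Nat.zero_le _
    · intro m hm
      have h1 : ∀ i, dk e i ≤ dk e m := by
        intro i
        have := hm i
        rwa [show domCount (G e) i = dk e i from ncard_eq e i,
          show domCount (G e) m = dk e m from ncard_eq e m] at this
      have h2 := he m h1
      unfold avd
      rw [sum_domCount, sum_mul_domCount]
      have h3 : (((5 * u) ^ 2 : ℕ) : ℝ) = ((5 * u : ℕ) : ℝ) ^ 2 := by push_cast; ring
      rw [← h3]
      exact h2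
  refine ⟨main, ?_⟩
  obtain ⟨V, hV, G, _, ⟨m, hm⟩, hall⟩ := main (10 ^ 10) le_rfl (by norm_num)
  refine ⟨V, hV, G, m, hm, ?_, ?_⟩
  · intro h
    have h1 := hall m hm
    have h2 : (m : ℝ) = ((⌊avd G⌋ : ℤ) : ℝ) := by rw [← h]; push_cast; rfl
    have h3 := Int.floor_le (avd G)
    have h4 := Int.lt_floor_add_one (avd G)
    have h5 : |(m : ℝ) - avd G| < 2 := by
      rw [h2, abs_lt]; constructor <;> linarith
    push_cast at h1
    norm_num at h1
    linarith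
  · intro h
    have h1 := hall m hm
    have h2 : (m : ℝ) = ((⌈avd G⌉ : ℤ) : ℝ) := by rw [← h]; push_cast; rfl
    have h3 := Int.le_ceil (avd G)
    have h4 := Int.ceil_lt_add_one (avd G)
    have h5 : |(m : ℝ) - avd G| < 2 := by
      rw [h2, abs_lt]; constructor <;> linarith
    push_cast at h1
    norm_num at h1
    linarith

end Pool.Agent.Results.MP_fd33cb_co.ModeFarFromMean
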